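import Pool.Agent.MP_46692b_an.H78.Spec

/-!
A continuous potential of the Cauchy transform, and its size near a point without atom.
-/

set_option autoImplicit false

open MeasureTheory Filter Topology Set Metric Complex
open scoped ENNReal

namespace Pool.Agent.MP_46692b_an.H36

open Pool.Agent.MP_46692b_an.H26 Pool.Agent.MP_46692b_an.H78

theorem kernel_bound (B : Set ℂ) (ξ : ℂ) :
    ∫⁻ w in B, ‖(w - ξ)⁻¹‖ₑ ≤ (∫⁻ w in closedBall (0 : ℂ) 1, ‖w⁻¹‖ₑ) + volume B := by
  have hm : Measurable ((closedBall (0 : ℂ) 1).indicator fun w : ℂ => ‖w⁻¹‖ₑ) :=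
    measurable_inv.enorm.indicator measurableSet_closedBall
  calc ∫⁻ w in B, ‖(w - ξ)⁻¹‖ₑ
      ≤ ∫⁻ w in B, ((closedBall (0 : ℂ) 1).indicator (fun w : ℂ => ‖w⁻¹‖ₑ) (w - ξ) + 1) := by
        refine lintegral_mono fun w => ?_
        by_cases h : w - ξ ∈ closedBall (0 : ℂ) 1
        · rw [indicator_of_mem h]
          exact le_self_add
        · rw [indicator_of_notMem h, zero_add, ← ofReal_norm, ENNReal.ofReal_le_one,
            norm_inv]
          rw [mem_closedBall_zero_iff, not_le] at h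
          exact inv_le_one_of_one_le₀ h.le
    _ = (∫⁻ w in B, (closedBall (0 : ℂ) 1).indicator (fun w : ℂ => ‖w⁻¹‖ₑ) (w - ξ)) +
          volume B := by
        rw [lintegral_add_right _ measurable_const, setLIntegral_const, one_mul]
    _ ≤ _ := by
        refine add_le_add ((setLIntegral_le_lintegral _ _).trans (le_of_eq ?_)) le_rfl
        rw [lintegral_sub_right_eq_self ((closedBall (0 : ℂ) 1).indicator fun w : ℂ => ‖w⁻¹‖ₑ) ξ,
          lintegral_indicator measurableSet_closedBall]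

theorem pole : PoleStmt := by
  intro μ _ q w₀ δ c hq hδ hc
  let K : ℂ → ℝ≥0∞ := fun ξ => ∫⁻ w in ball w₀ δ, ‖(w - ξ)⁻¹‖ₑ
  have hB : volume (ball w₀ δ) ≠ ∞ := measure_ball_lt_top.ne
  have hmeas : ∀ ρ : ℝ, Measurable (Function.uncurry fun w ζ : ℂ => ‖(w - (ζ - q) / ρ)⁻¹‖ₑ) :=
    fun ρ => (measurable_fst.sub ((measurable_snd.sub_const q).div_const _)).inv.enorm
  have lim : Tendsto (fun ρ : ℝ => ∫⁻ ζ, K ((ζ - q) / ρ) ∂μ) (𝓝[>] 0) (𝓝 (∫⁻ _, 0 ∂μ)) := by
    refine tendsto_lintegral_filter_of_dominated_convergence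
      (fun _ => (∫⁻ w in closedBall (0 : ℂ) 1, ‖w⁻¹‖ₑ) + volume (ball w₀ δ))
      (Eventually.of_forall fun ρ => (hmeas ρ).lintegral_prod_left)
      (Eventually.of_forall fun ρ => Eventually.of_forall fun ζ => kernel_bound _ _) ?_ ?_
    · rw [lintegral_const]
      refine ENNReal.mul_ne_top (ENNReal.add_ne_top.2 ⟨?_, hB⟩) (measure_ne_top _ _)
      exact (locallyIntegrable_inv.integrableOn_isCompact (isCompact_closedBall 0 1)).2.ne
    · filter_upwards [measure_eq_zero_iff_ae_notMem.1 hq] with ζ hζ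
      have h0 : 0 < ‖ζ - q‖ := norm_pos_iff.2 (sub_ne_zero.2 hζ)
      have t1 : Tendsto (fun ρ : ℝ => ENNReal.ofReal (2 * ρ / ‖ζ - q‖) * volume (ball w₀ δ))
          (𝓝[>] 0) (𝓝 0) := by
        have t2 : Tendsto (fun ρ : ℝ => 2 * ρ / ‖ζ - q‖) (𝓝[>] 0) (𝓝 (2 * 0 / ‖ζ - q‖)) :=
          tendsto_nhdsWithin_of_tendsto_nhds (Continuous.tendsto (by fun_prop) 0)
        have := ENNReal.Tendsto.mul_const (ENNReal.tendsto_ofReal t2) (Or.inr hB)
        simpa using this
      have t3 : ∀ᶠ ρ : ℝ in 𝓝[>] 0, ρ * (‖w₀‖ + δ) < ‖ζ - q‖ / 2 := by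
        have t2 : Tendsto (fun ρ : ℝ => ρ * (‖w₀‖ + δ)) (𝓝[>] 0) (𝓝 (0 * (‖w₀‖ + δ))) :=
          tendsto_nhdsWithin_of_tendsto_nhds (Continuous.tendsto (by fun_prop) 0)
        exact t2.eventually (gt_mem_nhds (by linarith))
      refine tendsto_of_tendsto_of_tendsto_of_le_of_le' tendsto_const_nhds t1
        (Eventually.of_forall fun _ => zero_le) ?_
      filter_upwards [t3, self_mem_nhdsWithin] with ρ h1 hρ
      have hρ' : 0 < ρ := hρ
      rw [← setLIntegral_const]
      refine setLIntegral_mono' measurableSet_ball fun w hw => ?_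
      rw [← ofReal_norm, norm_inv]
      refine ENNReal.ofReal_le_ofReal ?_
      have h2 : ‖w‖ ≤ ‖w₀‖ + δ := by
        have := norm_sub_norm_le w w₀
        rw [mem_ball, dist_eq_norm] at hw
        linarith
      have h3 : ‖(ζ - q) / ρ‖ = ‖ζ - q‖ / ρ := by
        rw [norm_div, norm_real, Real.norm_of_nonneg hρ'.le]
      have h4 := norm_sub_norm_le ((ζ - q) / ρ) w
      rw [norm_sub_rev _ w, h3] at h4
      have h5 : ‖w₀‖ + δ ≤ ‖ζ - q‖ / ρ / 2 := by
        rw [div_right_comm, le_div_iff₀ hρ']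
        linarith
      rw [← inv_div ‖ζ - q‖ (2 * ρ)]
      refine inv_anti₀ (by positivity) ?_
      rw [mul_comm, ← div_div]
      linarith
  have pos : ∫⁻ _ : ℂ, (0 : ℝ≥0∞) ∂μ < ENNReal.ofReal c * volume (ball w₀ δ) := by
    rw [lintegral_zero]
    exact ENNReal.mul_pos (ENNReal.ofReal_pos.2 hc).ne' (measure_ball_pos _ _ hδ).ne'
  filter_upwards [lim.eventually (gt_mem_nhds pos), self_mem_nhdsWithin] with ρ h1 hρ h
  have hρ' : 0 < ρ := hρ
  have hρc : (ρ : ℂ) ≠ 0 := ofReal_ne_zero.2 hρ'.ne'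
  have qmp : Measure.QuasiMeasurePreserving (fun w : ℂ => q + ρ • w) volume volume :=
    (measurePreserving_add_left volume q).quasiMeasurePreserving.comp
      (Measure.quasiMeasurePreserving_smul volume hρ'.ne')
  refine absurd h1 (not_lt.2 ?_)
  rw [← setLIntegral_const, ← lintegral_lintegral_swap (hmeas ρ).aemeasurable]
  refine lintegral_mono_ae ?_
  rw [ae_restrict_iff' measurableSet_ball]
  filter_upwards [qmp.ae h] with w hw hwB
  have h2 : q + ρ • w ∈ ball (q + (ρ : ℂ) * w₀) (ρ * δ) := by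
    rw [mem_ball, dist_eq_norm] at hwB ⊢
    rw [real_smul, add_sub_add_left_eq_sub, ← mul_sub, norm_mul, norm_real,
      Real.norm_of_nonneg hρ'.le]
    exact mul_lt_mul_of_pos_left hwB hρ'
  have h3 : ∫ ζ, (w - (ζ - q) / ρ)⁻¹ ∂μ = ρ * cauchy μ (q + ρ • w) := by
    rw [cauchy, ← integral_const_mul]
    congr 1
    ext ζ
    rw [show w - (ζ - q) / ρ = (q + ρ • w - ζ) / ρ by rw [real_smul]; field_simp; ring, inv_div,
      div_eq_mul_inv]
  refine le_trans ?_ (enorm_integral_le_lintegral_enorm _)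
  rw [h3, ← ofReal_norm, norm_mul, norm_real, Real.norm_of_nonneg hρ'.le]
  exact ENNReal.ofReal_le_ofReal ((div_le_iff₀' hρ').1 (hw h2))

theorem cauchy_locallyIntegrable (μ : Measure ℂ) [IsFiniteMeasure μ] :
    LocallyIntegrable (cauchy μ) := fun x => by
  let b : ContDiffBump x := ⟨1, 2, one_pos, one_lt_two⟩
  have hc : HasCompactSupport fun z => ((b z : ℝ) : ℂ) :=
    b.hasCompactSupport.comp_left (g := fun r : ℝ => (r : ℂ)) ofReal_zero
  have h := (integrable_kernel μ (continuous_ofReal.comp b.continuous) hc).integral_prod_left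
  refine ⟨closedBall x 1, closedBall_mem_nhds x one_pos,
    h.integrableOn.congr_fun (fun z hz => ?_) measurableSet_closedBall⟩
  have : b z = 1 := b.one_of_mem_closedBall hz
  simp only [Function.comp_apply, this, ofReal_one, mul_one, cauchy]

/-- The real linear form `v ↦ re (w * v)`. -/
noncomputable def L : ℂ →L[ℝ] ℂ →L[ℝ] ℝ :=
  (ContinuousLinearMap.compL ℝ ℂ ℂ ℝ reCLM).comp (ContinuousLinearMap.mul ℝ ℂ)

theorem L_apply (w v : ℂ) : L w v = (w * v).re := rfl

theorem norm_L (w : ℂ) : ‖L w‖ ≤ ‖w‖ :=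
  ContinuousLinearMap.opNorm_le_bound _ (norm_nonneg w) fun v => by
    rw [L_apply, ← norm_mul]
    exact abs_re_le_norm _

theorem exists_primitive (μ : Measure ℂ) [IsFiniteMeasure μ] (n : ℕ) :
    ∃ U : ℂ → ℝ, ∀ z, HasFDerivAt U (L (moll n (cauchy μ) z)) z := by
  have hl := cauchy_locallyIntegrable μ
  have hd := (moll_contDiff n hl).differentiable one_ne_zero
  obtain ⟨U, hU⟩ := (convex_univ (𝕜 := ℝ) (E := ℂ)).exists_forall_hasFDerivAt_of_fderiv_symmetric
    (ω := fun z => L (moll n (cauchy μ) z)) isOpen_univ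
    (L.differentiable.comp hd).differentiableOn fun a _ x y => by
      have e : fderiv ℝ (fun z => L (moll n (cauchy μ) z)) a =
          L.comp (fderiv ℝ (moll n (cauchy μ)) a) :=
        (L.hasFDerivAt.comp a (hd a).hasFDerivAt).fderiv
      have hi : ∀ v, Integrable fun t => fderiv ℝ (test n a) t v • cauchy μ t := fun v =>
        hl.integrable_smul_left_of_hasCompactSupport
          (continuous_fderiv_apply (test_contDiff n a) v)
          (HasCompactSupport.intro (test_compact n a).isCompact fun z hz => by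
            simp [fderiv_eq_zero_of_notMem hz])
      have hc := cauchy_weak μ (test_contDiff n a) (test_compact n a)
      have e1 : (fun t => (∫ ζ, (t - ζ)⁻¹ ∂μ) * dbar (test n a) t) = fun t =>
          fderiv ℝ (test n a) t 1 • cauchy μ t + I * (fderiv ℝ (test n a) t I • cauchy μ t) := by
        ext t
        simp only [dbar, real_smul, cauchy]
        ring
      rw [e1, integral_add (hi 1) ((hi I).const_mul I), integral_const_mul] at hc
      have e2 : fderiv ℝ (moll n (cauchy μ)) a 1 + I * fderiv ℝ (moll n (cauchy μ)) a I =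
          ((2 * Real.pi * ∫ ζ, test n a ζ ∂μ : ℝ) : ℂ) := by
        rw [fderiv_moll n hl, fderiv_moll n hl]
        push_cast
        linear_combination -hc
      have e3 := congrArg im e2
      rw [e]
      generalize fderiv ℝ (moll n (cauchy μ)) a = D at e3
      have h4 : ∀ u : ℂ, D u = u.re • D 1 + u.im • D I := fun u => by
        have h1 : u = u.re • (1 : ℂ) + u.im • I := by
          apply Complex.ext <;> simp
        conv_lhs => rw [h1, map_add, map_smul, map_smul]
      simp only [ContinuousLinearMap.comp_apply, L_apply]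
      rw [h4 x, h4 y]
      simp only [add_im, mul_im, I_re, I_im, zero_mul, one_mul, zero_add, ofReal_im] at e3
      simp only [mul_re, add_re, add_im, smul_re, smul_im, smul_eq_mul]
      linear_combination (x.im * y.re - x.re * y.im) * e3
  exact ⟨U, fun z => hU z trivial⟩

theorem moll_local {g : ℂ → ℂ} (hg : LocallyIntegrable g) {a w z : ℂ} {e : ℝ} {W : Set ℂ} {n : ℕ}
    (hW : tsupport (test n z) ⊆ W) (h : ∀ᵐ t, t ∈ W → ‖a * g t - w‖ ≤ e) :
    ‖a * moll n g z - w‖ ≤ e := by
  have hi : Integrable fun t => test n z t • g t :=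
    hg.integrable_smul_left_of_hasCompactSupport (test_contDiff n z).continuous (test_compact n z)
  have e1 : a * moll n g z - w = ∫ t, test n z t • (a * g t - w) := by
    simp only [smul_sub, ← mul_smul_comm]
    rw [integral_sub (hi.const_mul a) ((test_integrable n z).smul_const w), integral_const_mul,
      integral_smul_const, test_integral, one_smul, moll_eq]
  have h2 := norm_integral_le_of_norm_le (f := fun t => test n z t • (a * g t - w))
    ((test_integrable n z).mul_const e) (by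
      filter_upwards [h] with t ht
      rw [norm_smul, Real.norm_of_nonneg (test_nonneg n z t)]
      by_cases h0 : t ∈ tsupport (test n z)
      · exact mul_le_mul_of_nonneg_left (ht (hW h0)) (test_nonneg n z t)
      · rw [image_eq_zero_of_notMem_tsupport h0, zero_mul, zero_mul])
  rwa [integral_mul_const, test_integral, one_mul, ← e1] at h2

theorem moll_unif {g p a w : ℂ → ℂ} (hg : LocallyIntegrable g) (hp : Continuous p) {K : Set ℂ}
    (hK : IsCompact K) {e : ℝ}
    (h : ∀ x ∈ K, ∃ W ∈ 𝓝 (p x), ∀ᶠ y in 𝓝 x, ∀ᵐ z, z ∈ W → ‖a y * g z - w y‖ ≤ e) :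
    ∀ᶠ n in atTop, ∀ y ∈ K, ‖a y * moll n g (p y) - w y‖ ≤ e := by
  have := hK.mem_prod_nhdsSet_of_forall (l := atTop)
    (s := {t : ℕ × ℂ | ‖a t.2 * moll t.1 g (p t.2) - w t.2‖ ≤ e}) fun x hx => by
      obtain ⟨W, hW, h1⟩ := h x hx
      obtain ⟨ε, hε, h2⟩ := nhds_basis_closedBall.mem_iff.1 hW
      have h3 := eventually_test_subset (isCompact_closedBall (p x) (ε / 2)) isOpen_ball
        (closedBall_subset_ball (half_lt_self hε))
      have h4 : ∀ᶠ y in 𝓝 x, p y ∈ closedBall (p x) (ε / 2) :=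
        hp.continuousAt.eventually (closedBall_mem_nhds _ (half_pos hε))
      filter_upwards [h3.prod_mk (h1.and h4)] with t ht
      exact moll_local hg ((ht.1 _ ht.2.2).trans (ball_subset_closedBall.trans h2)) ht.2.1
  obtain ⟨s, hs, t, ht, h5⟩ := mem_prod_iff.1 this
  filter_upwards [hs] with n hn y hy
  exact h5 (mk_mem_prod hn (subset_of_mem_nhdsSet ht hy))

theorem pot : PotStmt := by
  intro μ _ p S M hp hS hc hM
  rcases S.eq_empty_or_nonempty with rfl | ⟨s₀, hs₀⟩
  · exact ⟨0, continuous_zero, fun x hx => hx.elim⟩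
  have hl := cauchy_locallyIntegrable μ
  choose U hU using exists_primitive μ
  have hre : ∀ {Φ : ℂ → ℂ} {d y : ℂ}, HasDerivAt Φ d y →
      HasFDerivAt (fun y => (Φ y).re) (L d) y := fun {Φ d y} h => by
    refine (reCLM.hasFDerivAt.comp y (h.hasFDerivAt.restrictScalars ℝ)).congr_fderiv ?_
    refine ContinuousLinearMap.ext fun v => ?_
    simp [L_apply, mul_comm]
  have hV : ∀ n y, HasFDerivAt (fun y => U n (p y))
      (L (deriv p y * moll n (cauchy μ) (p y))) y := fun n y => by
    refine ((hU n (p y)).comp y ((hp y).hasDerivAt.hasFDerivAt.restrictScalars ℝ)).congr_fderiv ?_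
    refine ContinuousLinearMap.ext fun v => ?_
    simp only [ContinuousLinearMap.comp_apply, L_apply, ContinuousLinearMap.coe_restrictScalars',
      ContinuousLinearMap.toSpanSingleton_apply, smul_eq_mul]
    congr 1
    ring
  have mvt : ∀ (K : Set ℂ) (Ψ : ℂ → ℝ) (w : ℂ → ℂ) (e : ℝ), IsCompact K → Convex ℝ K →
      (∀ y ∈ K, HasFDerivAt Ψ (L (w y)) y) →
      (∀ x ∈ K, ∃ W ∈ 𝓝 (p x), ∀ᶠ y in 𝓝 x, ∀ᵐ z, z ∈ W →
        ‖deriv p y * cauchy μ z - w y‖ ≤ e) → ∀ s ∈ K, ∀ t ∈ K,
      ∀ᶠ n in hyperfilter ℕ, ‖(U n (p s) - Ψ s) - (U n (p t) - Ψ t)‖ ≤ e * ‖s - t‖ := by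
    intro K Ψ w e hK hKc hΨ h s hs t ht
    refine Nat.hyperfilter_le_atTop ?_
    filter_upwards [moll_unif hl hp.continuous hK h] with n hn
    refine hKc.norm_image_sub_le_of_norm_hasFDerivWithin_le (f := fun y => U n (p y) - Ψ y)
      (fun y hy => ((hV n y).sub (hΨ y hy)).hasFDerivWithinAt) (fun y hy => ?_) ht hs
    rw [← map_sub]
    exact (norm_L _).trans (hn y hy)
  have lip : ∀ s ∈ S, ∀ t ∈ S,
      ∀ᶠ n in hyperfilter ℕ, ‖U n (p s) - U n (p t)‖ ≤ M * ‖s - t‖ := fun s hs t ht => by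
    have := mvt (segment ℝ s t) (fun _ => 0) (fun _ => 0) M (by
        rw [segment_eq_image]
        exact isCompact_Icc.image (by fun_prop)) (convex_segment s t)
      (fun y _ => by rw [map_zero]; exact hasFDerivAt_const _ _)
      (fun x hx => by simpa only [sub_zero, norm_mul] using hM x (hc.segment_subset hs ht hx))
      s (left_mem_segment _ _ _) t (right_mem_segment _ _ _)
    simpa only [sub_zero] using this
  have ex : ∀ s, ∃ l : ℝ, s ∈ S →
      Tendsto (fun n => U n (p s) - U n (p s₀)) (hyperfilter ℕ) (𝓝 l) := fun s => by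
    by_cases hs : s ∈ S
    · obtain ⟨l, -, hl⟩ := (isCompact_closedBall (0 : ℝ) (M * ‖s - s₀‖)).ultrafilter_le_nhds
        ((hyperfilter ℕ).map fun n => U n (p s) - U n (p s₀)) (le_principal_iff.2
          ((lip s hs s₀ hs₀).mono fun n hn => mem_closedBall_zero_iff.2 hn))
      exact ⟨l, fun _ => hl⟩
    · exact ⟨0, fun h => absurd h hs⟩
  choose f hf using ex
  have lim : ∀ s ∈ S, ∀ t ∈ S,
      Tendsto (fun n => U n (p s) - U n (p t)) (hyperfilter ℕ) (𝓝 (f s - f t)) :=
    fun s hs t ht => by simpa only [sub_sub_sub_cancel_right] using (hf s hs).sub (hf t ht)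
  have hL : LipschitzOnWith M.toNNReal f S := LipschitzOnWith.of_dist_le' fun s hs t ht => by
    rw [dist_eq_norm, dist_eq_norm]
    exact le_of_tendsto (lim s hs t ht).norm (lip s hs t ht)
  obtain ⟨u, hu, hfu⟩ := hL.extend_real
  refine ⟨u, hu.continuous, fun x hx Φ hpx hΦ => ?_⟩
  have h1 : ∀ᶠ y in 𝓝 x, p y ∉ μ.support :=
    hp.continuous.continuousAt.eventually (μ.isClosed_support.isOpen_compl.mem_nhds hpx)
  obtain ⟨r, hr, h2⟩ := nhds_basis_closedBall.mem_iff.1 (hΦ.and (h1.and (hS.mem_nhds hx)))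
  have hdp : Continuous (deriv p) := hp.deriv.continuous
  filter_upwards [closedBall_mem_nhds x hr] with y hy
  rw [← hfu (h2 hy).2.2, ← hfu hx, ← sub_eq_zero, ← norm_le_zero_iff]
  refine le_of_forall_pos_le_add fun ε hε => ?_
  have h3 := mvt (closedBall x r) (fun y => (Φ y).re) (fun y => deriv p y * cauchy μ (p y))
    (ε / r) (isCompact_closedBall x r) (convex_closedBall x r) (fun t ht => hre (h2 ht).1)
    (fun t ht => by
      have c1 := cauchy_continuousAt μ (h2 ht).2.1
      have c2 : ContinuousAt (fun b : ℂ × ℂ =>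
          ‖deriv p b.2 * cauchy μ b.1 - deriv p b.2 * cauchy μ (p b.2)‖) (p t, t) :=
        (((hdp.comp continuous_snd).continuousAt.mul (c1.comp_of_eq continuousAt_fst rfl)).sub
          ((hdp.comp continuous_snd).continuousAt.mul
            (c1.comp_of_eq (hp.continuous.comp continuous_snd).continuousAt rfl))).norm
      have c3 := c2.eventually (ge_mem_nhds (a := ε / r) (by simpa using div_pos hε hr))
      rw [nhds_prod_eq] at c3
      obtain ⟨W, hW, T, hT, h4⟩ := mem_prod_iff.1 c3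
      refine ⟨W, hW, ?_⟩
      filter_upwards [hT] with b hb
      exact Eventually.of_forall fun z hz => h4 (mk_mem_prod hz hb))
    y hy x (mem_closedBall_self hr.le)
  have h5 : Tendsto (fun n => ‖(U n (p y) - (Φ y).re) - (U n (p x) - (Φ x).re)‖) (hyperfilter ℕ)
      (𝓝 ‖(f y - (Φ y).re) - (f x - (Φ x).re)‖) := by
    simpa only [sub_sub_sub_comm] using
      ((lim y (h2 hy).2.2 x hx).sub_const ((Φ y).re - (Φ x).re)).norm
  refine (le_of_tendsto h5 h3).trans ?_
  rw [zero_add, div_mul_eq_mul_div, div_le_iff₀ hr]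
  exact mul_le_mul_of_nonneg_left (mem_closedBall_iff_norm.1 hy) hε.le

end Pool.Agent.MP_46692b_an.H36
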